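import Mathlib
import Pool.Graph.R_pool_sql_team_seeded_843ab51a.V1168.EV.Soule
import Pool.Agent.H855.CM.Lines

/-!
# The conjecture of Bloch and Soulé for the products of arbitrary schemes over finite fields with all
abelian varieties without exotic classes, over all finite fields: finitely many exceptional slope
vectors

Let `K i` (`i` in any set `I`) be CM fields, for instance **all** CM fields, and let `V i` be the space of
the odd rational functions on the complex embeddings of `K i`, a representation of the automorphisms of
`ℂ`. We fix an isomorphism `ν` of the algebraic closure of `ℚ_p` with `ℂ`; it defines a `p`-adic
valuation `v` of `ℂ` with `v p = 1`. The slope vector of a Weil number `π` for `p ^ a` in `K i` is the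
function `x φ = 2 v (φ π) - a` on the complex embeddings `φ` of `K i` (`slopeVector`).

Let `π j` (`j` in a finite set `J`) be Weil numbers for the same `q = p ^ a`, any `a > 0`, in fields
`L j`, each of which is one of the `K i`. We suppose that the family is *independent*
(`IsIndependent`): the slope vectors `x j` and their translates satisfy no nontrivial linear relation
with rational coefficients (`NoSlopeRelations`; equivalently, all Tate classes on all products of powers
of the abelian varieties of the `π j` are polynomials in divisor classes). A sufficient condition: the
fields `L j` are good (`IsGoodField`: the odd functions are irreducible, or `[L j : ℚ]` is twice an odd
prime number, or the maximal real subfield has a place of coprime degree, `HasCoprimePlace`), their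
normal closures are different, no imaginary quadratic field is contained in two of them, and the slopes
are good (`HasGoodSlopes`).

Let `f j` be monic polynomials whose complex roots are conjugates of `π j` (`IsPolyOf`), and `A` an abelian
variety over the field with `Q = q ^ s` elements, isogenous to a product of powers of abelian varieties
which come from the field with `q` elements and have the characteristic polynomials of Frobenius `f j`
(`IsAbelian`).

A number `ρ` comes from the finite set `Ω` of complex numbers (`From p Ω`) if it is not zero and a power
of it is the product of a power of a conjugate of an element of `Ω`, or of `1`, and of a power of `p`.
(All Frobenius eigenvalues of a variety over a finite field, and of its base changes to all finite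
extensions, come from such a set `Ω`: take one root of each irreducible factor of the characteristic
polynomials.)

Let `U` be
**any** scheme of finite type over the field with `Q` elements (singular, not proper, ...), of
dimension `d`, whose Frobenius numbers come from `Ω` in the following sense (`SchemeFrom`): the
zeros and poles `s` of the zeta function of `U` are such that `Q^s` comes from `Ω`
(the numbers `Q^s` are Frobenius eigenvalues on the cohomology with compact supports of `U`); and the
Frobenius endomorphism of `U` satisfies on each group `CH^r(A × U, i)` a nonzero rational polynomial
with roots from `Ω`. (This is true for instance if `U` is smooth projective with a finite-dimensional
motive, in the sense of Kimura and O'Sullivan, and its Frobenius eigenvalues come from `Ω`, and for the schemes obtained from these by localization.)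

**The theorem: there is a set `E` of at most `|Ω|` pairs `(i, v)`, where `v` is an odd function, not zero,
on the complex embeddings of `K i`, such that for all `a`, `s`, all independent families `π j`, all `f j`
and `A`, and all `U` as above, for which no vector of `E` is a combination of the slope vectors `x j`,
the statement below is true.** The set `E` depends only on `ν`, `Ω` and the fields `K i`. If `Ω` is stable
under the automorphisms of `ℂ` and its elements are nonzero and lie in CM fields or totally real fields
(the set of all Frobenius eigenvalues; `IsStable`), then moreover `∑ w i ≤ |Ω|`, the sum over the
elements `(i, v)` of `E`; here `w i` is twice a lower bound for the dimensions of the nonzero stable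
subspaces of `V i`, so `w i = [K i : ℚ]` if `V i` is irreducible, in particular if `K i` is good and
contains no imaginary quadratic field, and `w i = 2` is always possible (`IsWeight`, `IsSmall`).

A vector `v` on the embeddings of a field `K` is a combination of the slope vectors (`IsCombination`)
if it is the sum of the images of the `x j` under equivariant maps, that is,
`v φ = ∑ t φ (j, ψ) * x j ψ` with rational numbers `t φ (j, ψ)` which are invariant under the
automorphisms of `ℂ`, odd in `ψ`, and zero if the fields `K` and `L j` are unrelated (there are no
nonzero equivariant maps between their odd functions). So

* if `K i` is unrelated to all the `L j` the condition on the elements `(i, v)` of `E` is satisfied: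
  apart from at most `|Ω|` fields, and the fields related to them, there are **no** exceptional abelian
  varieties, over all finite fields;
* if the `L j` are pairwise unrelated and `K i` is one of them, `L j₀`, the condition is that the slope
  vector `x j₀` is not mapped to `v` by an endomorphism of the representation `V i`; if `V i` is
  absolutely irreducible, that `x j₀` is not on the line of `v`.

(Exceptions are necessary: an abelian variety has common divisor classes with itself.)

Then there are products `D t` of `c t` divisor classes on `A`, finitely many (independent of `U`), such
that, for rational coefficients,

1. every element of `CH^r(A × U, i)` is in a unique way the sum of the products of the `D t` with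
   elements of `CH^(r - c t)(U, i)`;
2. the order at `s = dim A + d - r` of the zeta function of `A × U` is the sum over `t` of the orders
   at `s = d - (r - c t)` of the zeta function of `U`;
3. **the formula of Bloch and Soulé (with the finiteness of the ranks) holds for `A × U` and all
   `r ≤ n` if and only if it holds for `U` and all `r ≤ n`, for all `n`.**

So the conjecture for `A × U` reduces to the one for `U`. For instance it holds for `A` (`U` a point),
and for the products of `A` with cellular schemes and with curves.

The result `ExceptionalSlopeLines` of an earlier run supposes that the `K i` have pair flips (`PairFlips`;
then the `V i` are absolutely irreducible and pairwise unrelated), and it is about finitely many fields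
and one Weil number in each of them. Here the CM fields are arbitrary, there can be several Weil numbers
in one field, and all finite families in infinitely many fields are considered at the same time. The
result `EveryVarietyTimes` of an earlier run is about one finite field and one family of Weil numbers in
fields with pair flips: its exceptional set depends on the Weil numbers.

The framework: the Chow ring and the ring of correspondences of `A`, with rational coefficients, and
the cohomology of `A` with complex coefficients (we choose an isomorphism of the algebraic closure of
`ℚ_ℓ` with `ℂ`), with the formal properties and the theorems of Tate on divisors and of Kimura on the
nilpotence of homologically trivial correspondences (`AbelianData`, `IsAbelian`); the groups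
`T^i(U, j) = CH^j(U, 2 j - i)` and `T^i(A × U, j) = CH^j(A × U, 2 j - i)` (indexed by codimension, as in
the question), with the products with classes on `A`, the push-forward from `A × U` to `U`, the operation
of the correspondences from `A` to `A` and the Frobenius endomorphism of `U` (`RelData`, `IsRel`); the
Frobenius endomorphism of `A × U` acts on the groups of codimension `j` as multiplication by `Q ^ j`
(`IsPure`; for homology theories the pull-back by the finite flat Frobenius of `A` and the inverse of
the push-forward by the one of `U` are meant, up to the power of `Q` given by the dimension). The zeta
functions are the Euler products over the closed points (`PointData`), and the number of points of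
`A × U` over the field with `Q ^ m` elements is the product of those of `U` and `A`, which for `A` is
given by the trace formula (`IsProductPoints`). `IsContinuation` says that `Λ` is a meromorphic
continuation of the Euler product, and the order of the zeta function at a point is the one of any
such `Λ`.

The proof. For `β` in `Ω` let `g` be the function `σ ↦ v (σ β) - v (conj (σ β))` of the automorphisms `σ` of
`ℂ`, and `M` the rational representation generated by it. Suppose that for some family there is a
relation between the roots of the `f j` and a number that comes from `β`. Computing valuations, `g` is
a value `σ ↦ ∑ n (j, ψ) x j (σ ψ)` of the relation map of the family, `n` odd. Compose the orthogonal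
projection to the representation generated by `n` with the relation map: this is an equivariant map from
the odd functions of the family to `M` which is not zero, hence not zero on the odd functions of one
of the fields `K i`, and there it is given by a vector `v`: the exceptional vector of `β`
(`exists_vector`). As the image of `V i` in `M` is isomorphic to a nonzero stable subspace of `V i`,
`w i` is at most twice the dimension of `M`, hence at most the number of the conjugates of `β`
(`lowerBound_le`). If `g` is a value of the relation map of **another** family then so are all elements
of `M`, in particular the functions `σ ↦ v (σ φ)`, and choosing the values orthogonal to the relations we
see that `v` is a combination of its slope vectors (`isCombination_of`). So outside of the exceptional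
vectors there are no relations (`exists_vectorsX`).

If a Weil number `α` of the cohomology of `A` and a number `ρ` from `Ω` have the product `Q ^ i`, then
`α = Q ^ k` and `α` is a product of pairs of complex conjugate numbers, so that the eigenvectors of the
Frobenius endomorphism of `A` for `α` are products of divisor classes. The zeta function of `A × U` is
the product of the translates of the one of `U` by the logarithms of the eigenvalues `α` on
`H^a(A)`, with the exponents `(-1)^a`; a translate has a zero or a pole at an integer `s = i` only if
`Q ^ i / α` comes from `Ω`, so that `α = Q ^ k`, and the multiplicity of `Q ^ k` is the number of the `t`
with `c t = k`, or with `dim A - c t = k` (the `D t` have a dual system `E t` for the intersection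
pairing). For the higher Chow groups, let `p` be the projector given by the `D t`, `E t`. For a
suitable polynomial `P` the correspondence `(1 - p) P (F)` is homologically trivial, hence nilpotent,
and `P (F)` is invertible on `CH^r(A × U, i)`, since there the Frobenius endomorphism `F` of `A`
satisfies the polynomial with the roots `Q ^ r / ρ`. So `p` acts as the identity. The system of
equations between the Euler characteristics and the orders is triangular, with a nonzero diagonal,
whence (3).
-/

set_option autoImplicit false

namespace Pool.Agent.Results.MP_666bea_ag.ExceptionalVectors

open NumberField Pool.Agent.V1168.EV Pool.Agent.H855.CM

/-- **The formula of Bloch and Soulé for `A × U` and all `r ≤ n` is equivalent to the one for `U` and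
all `r ≤ n`, for all `U` with Frobenius eigenvalues from the finite set `Ω` and all abelian
varieties `A` in finite independent families of Weil numbers in the CM fields `K i`, over all finite
fields, outside of at most `|Ω|` exceptional slope vectors.** -/
theorem result {p : ℕ} [Fact p.Prime] (ν : PadicAlgCl p ≃+* ℂ) {I : Type}
    (K : I → Type) [∀ i, Field (K i)] [∀ i, NumberField (K i)] [∀ i, IsCMField (K i)]
    (w : I → ℕ) (hw : ∀ i, IsWeight (K i) (w i)) (Ω : Finset ℂ) :
    ∃ E : Finset (Σ i, ((K i →+* ℂ) → ℝ)), IsSmall w Ω E ∧
      ForAllFamilies ν K (fun _ q f => SouleTimes p Ω q f) E := by
  obtain ⟨E, hE, h⟩ := exists_vectors ν K w hw Ω
  exact ⟨E, hE, h _ fun J q f hq hR => souleTimes hq hR⟩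

end Pool.Agent.Results.MP_666bea_ag.ExceptionalVectors
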