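import Pool.Agent.H865.RV.Ut

/-!
# MP_666bea_ag, Q1: zeta functions of schemes and representation schemes of groups

For a group `Γ` and a group scheme `G` let `Hom(Γ, G)` be the scheme of the homomorphisms; for a finite
field `𝔽_q` it has `#Hom(Γ, G(𝔽_q))` points. Here `G` is one of

* the group `AGL_1` of the affine transformations `z ↦ a z + b` of the line,
* the group `GL_m`,
* the group `UT_3` of the upper unitriangular `3 × 3` matrices.

**Theorem.** The following statements are equivalent.

1. The zeta functions of all schemes of finite type over `ℤ` extend to meromorphic functions on `ℂ`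
   (Q1 of Bloch and Soulé).
2. The zeta functions `exp (∑_p ∑_{n ≥ 1} #Hom(Γ, AGL_1(𝔽_{p^n})) p^{-ns} / n)` do for all finitely
   generated groups `Γ`.
3. The zeta functions in 2. do for all groups `Γ_E` with generators `u, v, x_1, …, x_a, y_1, …, y_b` and
   with relators of the form `∏_{(i, j)} (x_i y_j) ⁅u, v⁆ (x_i y_j)⁻¹`, at most three factors in every
   relator. (These groups are finitely presented.)
4. The zeta functions `exp (∑_p ∑_{n ≥ 1} #Hom(Γ, GL_m(𝔽_{p^n})) p^{-ns} / n)` do for all `m` and all
   finitely generated groups `Γ`.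
5. The zeta functions in 4. do for `m = 2` and all finitely presented groups `Γ`.
6. The zeta functions `exp (∑_p ∑_{n ≥ 1} #Hom(Γ, UT_3(𝔽_{p^n})) p^{-ns} / n)` do for all finitely
   generated groups `Γ` that are nilpotent of class at most two.

Proof. 1. implies the others, since `Hom(Γ, G)` is an affine scheme of finite type over `ℤ` and the
function is its zeta function.

3. ⇒ 1.: In `AGL_1(K)` the commutator `⁅u, v⁆` is a translation by some `D`, and the conjugate of a
translation by an affine map with slope `t` is the translation by `t D`. So a tuple satisfies the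
relations if and only if `D = 0` or `∑ s_i t_j = 0` for all relators, where `s_i`, `t_j` are the slopes of
`x_i`, `y_j`. Hence `#Hom(Γ_E, AGL_1(𝔽_q)) = q^{N + 2} (q - 1)^{N + 1} + q^{N + 2} (q - 1) (q - 2) Z(q)`, where
`N = a + b` and `Z(q)` is the number of the solutions of the system of the bilinear equations in the torus
`(𝔽_q^*)^N`. If `g(q) = (q - c) f(q)`, then the zeta functions satisfy `ζ_f(s - 1) = ζ_g(s) ζ_f(s)^c`, and so
`ζ_f` has a continuation if `ζ_g` has (`of_power`). The solutions in the affine space are obtained from the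
solutions in the tori by induction on the number of the coordinates that may be zero, and every scheme of
finite type over `ℤ` is reduced to systems of bilinear equations with at most three terms
(`Pool.Agent.Q282.UZ.three_iff`, starting file OrdersOfThreeTermSystems).

5. ⇒ 1.: Let `Δ_E` have the generators `u, v, x_i, y_j, g_0, …, g_5` and, with `c = ⁅u, v⁆` and
`c^w = w c w⁻¹`, the relators `⁅c, c^x⁆` for all generators `x`, those of `Γ_E` and `c c^{g_0} c^{g_1}`,
`c c^{g_2} c^{g_3}`, `c^{g_2} c^{g_5}`, `c^{g_0} c^{g_4} c^{g_5}`. For a tuple in `GL_2(𝔽_q)` with `c ≠ 1`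
the first relators imply that `c^x` is `c` or `c⁻¹` for all generators `x`, or that `c` is, up to the sign,
unipotent and all generators fix its eigenline; the last four relators are impossible in the first case and
for scalar `c` (they define the moduli space `M_{0,5}`, which has no points over `𝔽_2` and `𝔽_3`). In the
second case the tuple is conjugate to a tuple of upper triangular matrices, and the number of
these is `(q + 1) (q - 1)^{N + 9} q^{N + 8} (q - 2)^2 (q - 3) Z(q)`. The tuples with `c = 1` are the
homomorphisms from the group with the single relator `⁅u, v⁆`.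

6. ⇒ 1.: For relators that are products of commutators of generators the homomorphisms to `UT_3` are, up
to a power of `q`, the points of the scheme `T(v, w') = T(v', w)` of the starting file ConjugacyClasses, whose
reduction is used (`Pool.Agent.NH36.Cz.sys_of`).
-/

set_option autoImplicit false

open CategoryTheory AlgebraicGeometry Pool.Agent.Y116.UV Pool.Agent.H865.RV
open scoped commutatorElement

namespace Pool.Agent.Results.MP_666bea_ag.RepresentationSchemes

/-- The Euler product `∏ (1 - N(x)^{-s})⁻¹` over the closed points `x` of `X`. -/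
noncomputable def eulerProduct (X : Scheme.{0}) (s : ℂ) : ℂ :=
  ∏' x : {x : X // IsClosed ({x} : Set X)}, (1 - ((Nat.card (X.residueField x.1) : ℂ) ^ (-s)))⁻¹

/-- The Euler product over the closed points of `X` extends to a meromorphic function on `ℂ` (Q1 for
`X`). -/
def Continues (X : Sch ℤ) : Prop :=
  ∃ F : ℂ → ℂ, MeromorphicOn F Set.univ ∧ ∃ σ : ℝ, ∀ s : ℂ, σ < s.re → F s = eulerProduct X.left s

/-- `P` is true for all schemes of finite type over `ℤ`. -/
def ForAllSchemes (P : Sch ℤ → Prop) : Prop :=
  ∀ X : Sch ℤ, LocallyOfFiniteType X.hom → QuasiCompact X.hom → P X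

/-- The series `∑_p ∑_{n ≥ 1} φ(𝔽_{p^n}) p^{-ns} / n` converges in a half-plane and its exponential
extends to a meromorphic function on `ℂ`. -/
def ZetaContinues (φ : ∀ (K : Type) [Field K], ℕ) : Prop :=
  ∃ F : ℂ → ℂ, MeromorphicOn F Set.univ ∧ ∃ σ : ℝ, ∀ s : ℂ, σ < s.re → ∃ L : ℂ,
    HasSum (fun x : Nat.Primes × ℕ =>
      (φ (@GaloisField x.1 ⟨x.1.2⟩ (x.2 + 1)) : ℂ) / (x.2 + 1 : ℂ) *
        ((x.1 : ℕ) : ℂ) ^ (-(((x.2 + 1 : ℕ) : ℂ) * s))) L ∧ F s = Complex.exp L

/-- The relator `∏_{(i, j)} (x_i y_j) ⁅u, v⁆ (x_i y_j)⁻¹` of a list of pairs `(i, j)`. The generators are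
`u = inl 0`, `v = inl 1`, `x_i = inr (inl i)` and `y_j = inr (inr j)`. -/
def relator {a b : ℕ} (L : List (Fin a × Fin b)) : FreeGroup (Fin 2 ⊕ (Fin a ⊕ Fin b)) :=
  let g := FreeGroup.of (α := Fin 2 ⊕ (Fin a ⊕ Fin b))
  (L.map fun e => (g (.inr (.inl e.1)) * g (.inr (.inr e.2))) * ⁅g (.inl 0), g (.inl 1)⁆ *
    (g (.inr (.inl e.1)) * g (.inr (.inr e.2)))⁻¹).prod

/-- **Theorem.** The zeta functions of all schemes of finite type over `ℤ` extend to meromorphic
functions on `ℂ` if and only if those of the representation schemes `Hom(Γ, AGL_1)` do for all finitely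
generated groups, equivalently for the groups `Γ_E`; if and only if those of all `Hom(Γ, GL_m)` do for all
finitely generated groups, equivalently those of `Hom(Γ, GL_2)` for all finitely presented groups; if and only
if those of `Hom(Γ, UT_3)` do for all finitely generated nilpotent groups of class at most two. -/
theorem result :
    List.TFAE [
      ForAllSchemes Continues,
      ∀ (Γ : Type) [Group Γ] [Group.FG Γ], ZetaContinues fun K _ => Nat.card (Γ →* (K ≃ᵃ[K] K)),
      ∀ (a b c : ℕ) (E : Fin c → List (Fin a × Fin b)), (∀ l, (E l).length ≤ 3) →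
        ZetaContinues fun K _ =>
          Nat.card (PresentedGroup (Set.range fun l => relator (E l)) →* (K ≃ᵃ[K] K)),
      ∀ (m : ℕ) (Γ : Type) [Group Γ] [Group.FG Γ],
        ZetaContinues fun K _ => Nat.card (Γ →* GL (Fin m) K),
      ∀ (Γ : Type) [Group Γ] [Group.IsFinitelyPresented Γ],
        ZetaContinues fun K _ => Nat.card (Γ →* GL (Fin 2) K),
      ∀ (Γ : Type) [Group Γ] [Group.FG Γ], (∀ x y z : Γ, ⁅⁅x, y⁆, z⁆ = 1) →
        ZetaContinues fun K _ => Nat.card (Γ →* Ut K)] := by
  have h1 : ForAllSchemes Continues → ∀ X : Sch ℤ, FT False X → Pool.Agent.Q193.Zeta.Co X :=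
    fun h X hX => h X hX.1 hX.2
  have h2 : (∀ X : Sch ℤ, FT False X → Pool.Agent.Q193.Zeta.Co X) → ForAllSchemes Continues :=
    fun h X hX1 hX2 => h X ⟨hX1, hX2, fun h => h.elim⟩
  tfae_have 1 → 2 := fun h Γ _ _ => fg_cont (h1 h) Γ
  tfae_have 2 → 3 := fun h a b c E _ => by
    have : Group.FG (PresentedGroup (Set.range fun l => relator (E l))) :=
      Group.fg_of_surjective (PresentedGroup.mk_surjective _)
    exact h _
  tfae_have 3 → 1 := fun h => h2 (all_of_gam fun a b c E hE => h a b c E hE)
  tfae_have 1 → 4 := fun h m Γ _ _ => fg_cont_gl (h1 h) m Γ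
  tfae_have 4 → 5 := fun h Γ _ _ => by
    have := fg_of_fp Γ
    exact h 2 Γ
  tfae_have 5 → 1 := fun h => h2 (all_of_gl fun Γ _ _ => h Γ)
  tfae_have 1 → 6 := fun h Γ _ _ _ => fg_cont_ut (h1 h) Γ
  tfae_have 6 → 1 := fun h => h2 (all_of_ut fun Γ _ _ hΓ => h Γ hΓ)
  tfae_finish

end Pool.Agent.Results.MP_666bea_ag.RepresentationSchemes
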