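import Pool.Agent.H857.MX.Master
import Pool.Agent.H857.MX.Good
import Pool.Graph.R_pool_sql_team_seeded_2aa45f1a.Q64.M.Order

/-!
# MP_666bea_ag: orders of zeta functions and ranks of higher Chow groups for `A × X`, for
arbitrary schemes `X` over finite fields and all abelian varieties `A` but a set of isogeny
classes of the exact order of magnitude of its size

Let `g i` (`i` in a finite set `I`) be positive integers. For a prime power `q = p ^ a` let
`families g p a` be the finite set of the families `f i` of Weil polynomials of degrees `2 g i`
relative to `q` with integral Newton polygons. It contains the families of the characteristic
polynomials of the Frobenius endomorphisms of abelian varieties `A i` of dimensions `g i` over the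
field with `q` elements (Weil), which determine the `A i` up to isogeny (Tate). It has about `q ^
(∑ g i (g i + 1) / 4)` elements.

Let the `ρ k` be `r` Weil numbers of weights less than `c` with slopes in `(1 / D) ℤ`, for
instance the eigenvalues of Frobenius on the `ℓ`-adic homology of a scheme over the field with `q`
elements. The family `f` is exceptional if there is a multiplicative relation between roots of the
`f i`, the numbers `ρ k` and `q`, up to roots of unity, which does not come from the pairs of
conjugate roots `z`, `q / z`.

1. The proportion of the exceptional families among all the families is of the exact order of
magnitude `∑ q ^ (- δ (g i) / 2)`, where `δ (g) = g` for `g ≠ 2` and `δ (2) = 1`: it is at most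
`C` times, and at least `1 / C` times this sum. The constant `C` depends only on the `g i`, on
`r`, `c` and `D` - not on `p`, `q` and the `ρ k`.

2. Let `f` be a family which is not exceptional, and let `A` be an abelian variety over the field
with `Q = q ^ s` elements, `s > 0`, which is isogenous to a product of powers of abelian varieties
`A i` with characteristic polynomials `f i`. Let `X` be **any** separated scheme of finite type
over the field with `Q` elements (singular, reducible, not proper) such that

* the eigenvalues of Frobenius on the `ℓ`-adic homology of `X` lie, up to powers, in the group
  generated by the `ρ k` and `q` (`Generated`);
* the Frobenius endomorphism of `X` satisfies on each group `CH_n(A × X, i)_ℚ` a nonzero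
  polynomial with rational coefficients whose complex roots have the same property. For instance
  this is so if the motive of `X` is built from finite-dimensional motives (Kimura) of smooth
  projective varieties which satisfy the first condition.

**For every integer `N` the following are equivalent: Q2 is true for `A × X` at all integers `n ≥
N + dim A`; Q2 is true for `X` at all integers `n ≥ N`.** Here Q2 for `X` at `n` (that is, for `r
= dim X - n`) is the statement (`OrderFormulaN`): the ranks of the groups `CH_n(X, i)` are finite,
and zero for all but finitely many `i`, and their alternating sum is the order of the pole of
`ζ_X(s)` at `s = n`. In particular Q2 is true for `A × X` and all `r` if and only if it is true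
for `X` and all `r`.

By the trace formula of Grothendieck the order of the pole of `ζ_X(s)` at `s = n` is the
alternating sum of the multiplicities of the eigenvalue `Q ^ n` of Frobenius on the groups `H_c ^
a (X)`, which is the multiplicity of the eigenvalue `Q ^ (-n)` on the dual group `H_a(X)`
(`multN`, `multM`).

The conjectures of Tate, Beilinson and Parshin, or finite generation, are not assumed: both sides
of the equivalence are numerical statements, in which cancellations between the groups of
different degrees are possible. Since there are no inequalities between the ranks and the orders
which are known for all `X`, the equivalence for a single `n` is not formal: it is proved for all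
`n` above a bound, by induction from the top.

What is used of `A` are known theorems (`IsAbelian`): `H(A)` is generated by `H^1`, Frobenius is
diagonalizable on `H^1` (Weil), the theorem of Tate on divisors, and the nilpotence of
homologically trivial correspondences (Kimura). The theories `T` (higher Chow groups with rational
coefficients) and `R` (`ℓ`-adic homology, `L` is the coefficient field) of `X` and `A × X` are
modelled by `RelData`, with the formal properties in `IsTheory`: degrees, products with classes on
`A`, push-forward to `X`, the projection formula, the operation of the correspondences of `A` and
of the Frobenius endomorphism of `X`. The group of bidegree `(i, j)` of `X` is `H_(-i)(X, -j)`,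
and the group of bidegree `(i, j)` of `A × X` is `H_(2 d - i)(A × X, d - j)`, `d = dim A`, where
in motivic homology `CH_n(X, i) = H_(2 n + i)(X, n)`. The operator `frobN`, `frobM` is the inverse
of the push-forward by the Frobenius endomorphism of `X`; then the Frobenius endomorphism of `A ×
X` is the multiplication by `Q ^ j` on the higher Chow groups (`IsPure`). `FiniteEig`, `IsLinear`
(the operations are `L`-linear) and `IsFiniteDimensional` are standard. `altSum` is the
alternating sum of a function with finite support.

The framework and the geometric part (`Q64.M.orderReduces`) are those of the theorem
`AllCMTypesTimes` of the library, which bounds the number of the exceptional slope types of CM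
fields and asks that the eigenvalues of the other factor are unrelated to these fields. In other
theorems of the library the exceptional set of isogeny classes has a proportion `O (q ^ (-1 / 6)
log q)`, without a lower bound, for other factors with eigenvalues in a group of small rank over a
fixed number field. New here are the arbitrary eigenvalues, the uniformity in `p` and the exact
order of magnitude of the exceptional set. The count is that of MP_557161_ag: the slopes bound the
exponents of the relations, up to proportionality, and each relation is a nontrivial algebraic
equation for the coefficients on almost all pencils of Weil polynomials, by the expansions of the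
roots at infinity.
-/

set_option autoImplicit false

namespace Pool.Agent.Results.MP_666bea_ag.SharpExceptionalSet

open Pool.Agent.H857.SX Pool.Agent.H857.MX Pool.Agent.Q64.L Pool.Agent.Q64.M

/-- **The exceptional set.** -/
theorem result {I : Type} [Fintype I] (g : I → ℕ) (hg : ∀ i, 0 < g i) (r D c : ℕ) (hD : 0 < D) :
    ∃ C : ℝ, 0 < C ∧ ∀ (p : ℕ) [Fact p.Prime] (a : ℕ), 0 < a →
      ((families g p a).Finite ∧
        ∏ i, Real.sqrt ((p : ℝ) ^ a) ^ (g i * (g i + 1) / 2) ≤ C * (families g p a).ncard ∧
        (families g p a).ncard ≤ C * ∏ i, Real.sqrt ((p : ℝ) ^ a) ^ (g i * (g i + 1) / 2)) ∧
      ∀ (w : Fin r → ℕ) (ρ : Fin r → ℂ), (∀ k, w k < c ∧ IsWeilNumber p a D (w k) (ρ k)) →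
        (({f ∈ families g p a | ¬ Independent f (p ^ a) ρ}.ncard : ℝ) ≤
            C * (rate g ((p : ℝ) ^ a) * (families g p a).ncard) ∧
          rate g ((p : ℝ) ^ a) * (families g p a).ncard ≤
            C * {f ∈ families g p a | ¬ Independent f (p ^ a) ρ}.ncard) ∧
        ∀ f ∈ families g p a, Independent f (p ^ a) ρ →
          OrderReduces (RootsIn (Generated (p ^ a) ρ)) (p ^ a) f :=
  Pool.Agent.H857.MX.master g hg r D c hD (fun q f R => OrderReduces (RootsIn R) q f)
    fun _ _ _ hq _ h0 hR => orderReduces hq (good_of_noRel hR h0)

end Pool.Agent.Results.MP_666bea_ag.SharpExceptionalSet
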